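import Pool.Agent.Q162.Benzel.T112

/-!
# MP_65d510_co : type 112 tilings of the (n+2, 2n)-benzel

For every `n ≥ 1` and every choice `i` of the excluded bone direction, the number of tilings of the
`(n+2, 2n)`-benzel by right stones, left stones and the bones in the two other directions is
`S_n - S_{n-1}`, a difference of consecutive large Schröder numbers.
-/

namespace Pool.Agent.Results.MP_65d510_co.BenzelRoyal

open Pool.Agent.Q162.Benzel

theorem result (i : Fin 3) (n : ℕ) (hn : 1 ≤ n) :
    ((T112 i ((n : ℤ) + 2) (2 * (n : ℤ)) : ℕ) : ℤ) = (schroeder n : ℤ) - schroeder (n - 1) :=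
  Pool.Agent.Q162.Bz.T112_smaller' i n hn

end Pool.Agent.Results.MP_65d510_co.BenzelRoyal
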